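import Pool.Agent.TH716.TW.Defs
import Pool.Agent.H691R3.PrimeSum
import Pool.Agent.Helper932.SplitPrimes

set_option autoImplicit false

namespace Pool.Agent.TH929.TW.Many

open NumberField IsDedekindDomain Pool.Agent.TH716.TW

/-- a rational prime of residue degree one in an extension containing a primitive seventh root of
unity is the norm of a prime of `K` and is `1` modulo `7` -/
lemma good_prime (K : Type) [Field K] [NumberField K] (L : Type) [Field L] [NumberField L]
    [Algebra K L] (ζ : 𝓞 L) (hζ : IsPrimitiveRoot ζ 7) (p : ℕ) (hp : p.Prime) (h7 : p ≠ 7)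
    (φ : 𝓞 L →+* ZMod p) :
    p % 7 = 1 ∧ ∃ v : HeightOneSpectrum (𝓞 K), Ideal.absNorm v.asIdeal = p := by
  have : Fact p.Prime := ⟨hp⟩
  constructor
  · -- the image of ζ
    have hne : NeZero ((7 : ℕ) : ZMod p) := by
      refine ⟨fun h => ?_⟩
      rw [ZMod.natCast_eq_zero_iff] at h
      have := (Nat.prime_dvd_prime_iff_eq hp (by norm_num)).1 h
      exact h7 this
    have hpr : IsPrimitiveRoot (φ ζ) 7 := by
      rw [← Polynomial.isRoot_cyclotomic_iff]
      have h1 : Polynomial.IsRoot (Polynomial.cyclotomic 7 (𝓞 L)) ζ :=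
        hζ.isRoot_cyclotomic (by norm_num)
      have h2 := h1.map (f := φ)
      rwa [Polynomial.map_cyclotomic] at h2
    have h0 : φ ζ ≠ 0 := hpr.ne_zero (by norm_num)
    have h1 := ZMod.pow_card_sub_one_eq_one h0
    have h2 := hpr.dvd_of_pow_eq_one _ h1
    have h3 := hp.two_le
    omega
  · set ψ : 𝓞 K →+* ZMod p := φ.comp (algebraMap (𝓞 K) (𝓞 L)) with hψ
    have hsurj : Function.Surjective ψ := ZMod.ringHom_surjective ψ
    have hmax : (RingHom.ker ψ).IsMaximal := RingHom.ker_isMaximal_of_surjective ψ hsurj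
    have hne : RingHom.ker ψ ≠ ⊥ := by
      intro h
      have h1 : ((p : ℕ) : 𝓞 K) ∈ RingHom.ker ψ := by
        rw [RingHom.mem_ker, map_natCast, ZMod.natCast_self]
      rw [h, Ideal.mem_bot] at h1
      exact hp.ne_zero (by exact_mod_cast h1)
    refine ⟨⟨RingHom.ker ψ, hmax.isPrime, hne⟩, ?_⟩
    have e := RingHom.quotientKerEquivOfSurjective hsurj
    rw [Ideal.absNorm_apply, Submodule.cardQuot_apply]
    have := Nat.card_congr e.toEquiv
    rw [Nat.card_zmod] at this
    exact this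

/-- the field `K(ζ₇)` -/
lemma exists_ext (K : Type) [Field K] [NumberField K] : ∃ (L : Type) (_ : Field L)
    (_ : NumberField L) (_ : Algebra K L) (ζ : 𝓞 L), IsPrimitiveRoot ζ 7 := by
  have hn : NeZero ((7 : ℕ) : K) := ⟨by norm_num⟩
  refine ⟨CyclotomicField 7 K, inferInstance, ?_, inferInstance, ?_⟩
  · exact IsCyclotomicExtension.numberField {7} K (CyclotomicField 7 K)
  · have h := IsCyclotomicExtension.zeta_spec 7 K (CyclotomicField 7 K)
    exact ⟨h.toInteger, h.toInteger_isPrimitiveRoot⟩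

theorem result : S_many := by
  intro K _ _ _ B
  classical
  obtain ⟨L, _, _, _, ζ, hζ⟩ := exists_ext K
  have hns := Pool.Agent.Helper932.not_summable_split (K := L)
  set G : Set ℕ := {p : ℕ | p.Prime ∧ Nonempty (𝓞 L →+* ZMod p)} with hG
  -- a finite set of primes
  obtain ⟨F, hFG, hF7, hF⟩ : ∃ F : Finset ℕ, (∀ p ∈ F, p ∈ G) ∧ 7 ∉ F ∧
      B + 1 ≤ ∑ p ∈ F, (1 : ℝ) / p := by
    by_contra hcon
    push Not at hcon
    apply hns
    refine summable_of_sum_le (c := B + 2) (fun p => by positivity) fun u => ?_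
    have h1 := hcon ((u.map (Function.Embedding.subtype _)).erase 7)
      (fun p hp => by
        rw [Finset.mem_erase, Finset.mem_map] at hp
        obtain ⟨_, a, _, rfl⟩ := hp
        exact a.2) (by simp)
    have h2 : ∑ p ∈ u, (1 : ℝ) / (p : ℕ) = ∑ p ∈ u.map (Function.Embedding.subtype _), (1 : ℝ) / p := by
      rw [Finset.sum_map]; rfl
    rw [h2]
    have h3 : ∑ p ∈ u.map (Function.Embedding.subtype _), (1 : ℝ) / (p : ℝ) ≤
        ∑ p ∈ (u.map (Function.Embedding.subtype _)).erase 7, (1 : ℝ) / (p : ℝ) + 1 := by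
      by_cases h : 7 ∈ u.map (Function.Embedding.subtype _)
      · rw [← Finset.sum_erase_add _ _ h]
        norm_num
      · rw [Finset.erase_eq_of_notMem h]
        linarith
    linarith
  have hcont : Filter.Tendsto (fun s : ℝ => ∑ p ∈ F, (p : ℝ) ^ (-s)) (nhds 1)
      (nhds (∑ p ∈ F, (p : ℝ) ^ (-(1 : ℝ)))) := by
    refine tendsto_finsetSum _ fun p hp => ?_
    have hp0 : (0 : ℝ) < p := by exact_mod_cast (hFG p hp).1.pos
    have hc : Continuous fun s : ℝ => (p : ℝ) ^ (-s) :=
      Real.continuous_const_rpow hp0.ne' |>.comp continuous_neg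
    exact hc.tendsto 1
  have hlt : B < ∑ p ∈ F, (p : ℝ) ^ (-(1 : ℝ)) := by
    have : ∑ p ∈ F, (p : ℝ) ^ (-(1 : ℝ)) = ∑ p ∈ F, (1 : ℝ) / p :=
      Finset.sum_congr rfl fun p _ => by rw [Real.rpow_neg_one, one_div]
    rw [this]; linarith
  obtain ⟨ε, hε, hball⟩ := Metric.eventually_nhds_iff.1
    (hcont.eventually (lt_mem_nhds hlt))
  refine ⟨1 + ε / 2, by linarith, fun s hs1 hs2 => ?_⟩
  have hs : B < ∑ p ∈ F, (p : ℝ) ^ (-s) := by
    apply hball
    rw [Real.dist_eq, abs_of_pos (by linarith)]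
    linarith
  refine hs.le.trans ?_
  have hgood : ∀ p ∈ F, p % 7 = 1 ∧ ∃ v : HeightOneSpectrum (𝓞 K), Ideal.absNorm v.asIdeal = p := by
    intro p hp
    obtain ⟨h1, ⟨φ⟩⟩ := hFG p hp
    exact good_prime K L ζ hζ p h1 (fun h => hF7 (h ▸ hp)) φ
  have hne : Nonempty (HeightOneSpectrum (𝓞 K)) := by
    rcases F.eq_empty_or_nonempty with h | ⟨p, hp⟩
    · obtain ⟨M, hM⟩ := Ideal.exists_maximal (𝓞 K)
      exact ⟨⟨M, hM.isPrime, fun h => RingOfIntegers.not_isField K
        ((Ring.isField_iff_maximal_bot).2 (h ▸ hM))⟩⟩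
    · exact ⟨(hgood p hp).2.choose⟩
  choose! w hw using fun p (hp : p ∈ F) => (hgood p hp).2
  have hinj : Set.InjOn w F := by
    intro a ha b hb hab
    rw [← hw a ha, ← hw b hb, hab]
  set f : HeightOneSpectrum (𝓞 K) → ℝ := fun v =>
    if Ideal.absNorm v.asIdeal % 7 = 1 ∨ Ideal.absNorm v.asIdeal % 7 = 6 then
      (Ideal.absNorm v.asIdeal : ℝ) ^ (-s) else 0 with hf
  have hsum : Summable f := by
    refine Summable.of_nonneg_of_le (fun v => ?_) (fun v => ?_)
      (Pool.Agent.H691R3.nm_summable (K := K) hs1)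
    · simp only [hf]; split_ifs <;> positivity
    · simp only [hf, Pool.Agent.H691R3.nm]; split_ifs
      · exact le_rfl
      · positivity
  calc ∑ p ∈ F, (p : ℝ) ^ (-s) = ∑ p ∈ F, f (w p) := by
        refine Finset.sum_congr rfl fun p hp => ?_
        simp only [hf]
        rw [hw p hp, if_pos (Or.inl (hgood p hp).1)]
    _ = ∑ v ∈ F.image w, f v := (Finset.sum_image hinj).symm
    _ ≤ ∑' v, f v := hsum.sum_le_tsum _ fun v _ => by
        simp only [hf]; split_ifs <;> positivity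

end Pool.Agent.TH929.TW.Many
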